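import Pool.Agent.Helper11.DO.Fin2
import Pool.Agent.Helper11.DO.Gen

/-!
# MP_a499ba_nt: Gonek's law for almost every small displacement of the ordinates

Gonek's conjecture: for some real `B > 0` the lower and upper limits of `M(x) / F(x)` are `-B` and `B`, where
`F(x) = √x (log log log x)^{5/4}`. It is derived from the explicit formula (RH, simple zeros `1/2 + iγ`)
`M(x) = 2 Re ∑_{0 < γ ≤ x²} x^{1/2 + iγ} / ((1/2 + iγ) ζ'(1/2 + iγ)) + O(small)`, from the size of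
`∑_{γ ≤ T} 1 / |ρ ζ'(ρ)|` and from the heuristic idea that the ordinates behave as if they were independent.

Here the ordinates are `γ n`, the coefficients `c n`; every ordinate is displaced by `d n * ξ n` with `|ξ n| ≤ 1`, where
the scales `d n` may tend to zero like `(log γ n)^{κ - 1}`, `κ > 0` (the mean spacing of the ordinates of the zeta function
near `γ` is `2π / log γ`). The constant `a` is `0` for `M` and `1 / ζ(1/2)` for the summatory function `L` of the Liouville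
function.
-/

set_option autoImplicit false

namespace Pool.Agent.Results.MP_a499ba_nt.DisplacedOrdinates

open MeasureTheory ProbabilityTheory Filter Pool.Agent.Helper51.DO Pool.Agent.Helper11.DO

/-- `A(T) = 2 ∑_{γ n ≤ T} |c n|`. -/
noncomputable def total (γ : ℕ → ℝ) (c : ℕ → ℂ) (T : ℝ) : ℝ := 2 * ∑ᶠ n ∈ {n | γ n ≤ T}, ‖c n‖

/-- The data: positive ordinates `γ n` and complex coefficients `c n` such that for every `ε > 0` there are `O(T^{1+ε})`
ordinates up to `T`, the sum of `|γ n c n|²` over them is `O(T^{1+ε})`, and `A(T)` is at most a power of `log T`. -/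
structure Admissible (γ : ℕ → ℝ) (c : ℕ → ℂ) : Prop where
  pos : ∀ n, 0 < γ n
  fin : ∀ T, {n | γ n ≤ T}.Finite
  count : ∀ ε : ℝ, 0 < ε → ∃ C : ℝ, ∀ T : ℝ, 1 ≤ T → ({n | γ n ≤ T}.ncard : ℝ) ≤ C * T ^ (1 + ε)
  square : ∀ ε : ℝ, 0 < ε → ∃ C : ℝ, ∀ T : ℝ, 1 ≤ T →
    ∑ᶠ n ∈ {n | γ n ≤ T}, (γ n * ‖c n‖) ^ 2 ≤ C * T ^ (1 + ε)
  size : ∃ (K : ℕ) (C : ℝ), ∀ T : ℝ, 2 ≤ T → total γ c T ≤ C * Real.log T ^ K

/-- The scales of the displacements: `0 < d n ≤ 1` and `d n ≥ c₀ (1 + log (1 + γ n))^{κ - 1}` for some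
`κ` in `(0, 1]` and `c₀ > 0` (for instance a constant `d n = δ`). -/
structure Scale (γ d : ℕ → ℝ) : Prop where
  pos : ∀ n, 0 < d n
  le_one : ∀ n, d n ≤ 1
  lower : ∃ κ c₀ : ℝ, 0 < κ ∧ κ ≤ 1 ∧ 0 < c₀ ∧ ∀ n, c₀ * (1 + Real.log (1 + γ n)) ^ (κ - 1) ≤ d n

/-- `M_w(x) = a √x + 2 Re ∑_{γ n ≤ x²} c n x^{1/2 + i (γ n + w n)}`. -/
noncomputable def displaced (γ : ℕ → ℝ) (c : ℕ → ℂ) (a : ℝ) (w : ℕ → ℝ) (x : ℝ) : ℝ :=
  a * Real.sqrt x +
    2 * ∑ᶠ n ∈ {n | γ n ≤ x ^ 2}, (c n * (x : ℂ) ^ ((1 / 2 : ℂ) + ((γ n + w n : ℝ) : ℂ) * Complex.I)).re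

/-- Gonek's quotient `M_w(x) / (√x (log log log x)^{5/4})`. -/
noncomputable def quot (γ : ℕ → ℝ) (c : ℕ → ℂ) (a : ℝ) (w : ℕ → ℝ) (x : ℝ) : ℝ :=
  displaced γ c a w x / (Real.sqrt x * Real.log (Real.log (Real.log x)) ^ ((5 : ℝ) / 4))

/-- `B = limsup A(T) / (log T)^{5/4}`, in `[0, ∞]`. -/
noncomputable def gonekB (γ : ℕ → ℝ) (c : ℕ → ℂ) : EReal :=
  limsup (fun T : ℝ => ((total γ c T / Real.log T ^ ((5 : ℝ) / 4) : ℝ) : EReal)) atTop

theorem total_eq {γ : ℕ → ℝ} (hf : ∀ T, {n | γ n ≤ T}.Finite) (c : ℕ → ℂ) (T : ℝ) :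
    total γ c T = height γ c T := by
  unfold total height
  rw [finsum_upto (hf T)]

theorem card_eq {γ : ℕ → ℝ} (hf : ∀ T, {n | γ n ≤ T}.Finite) (T : ℝ) :
    ((upto γ T).card : ℝ) = ({n | γ n ≤ T}.ncard : ℝ) := by
  unfold upto
  rw [dif_pos (hf T), Set.ncard_eq_toFinset_card _ (hf T)]

theorem Admissible.data {γ : ℕ → ℝ} {c : ℕ → ℂ} (h : Admissible γ c) : Data γ c where
  pos := h.pos
  fin := h.fin
  count ε hε := by
    obtain ⟨C, hC⟩ := h.count ε hε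
    exact ⟨C, fun T hT => (card_eq h.fin T).le.trans (hC T hT)⟩
  square ε hε := by
    obtain ⟨C, hC⟩ := h.square ε hε
    refine ⟨C, fun T hT => ?_⟩
    rw [← finsum_upto (h.fin T)]
    exact hC T hT
  size := by
    obtain ⟨K, C, hC⟩ := h.size
    refine ⟨K, C, fun T hT => ?_⟩
    rw [← total_eq h.fin]
    exact hC T hT

theorem B_eq {γ : ℕ → ℝ} (hf : ∀ T, {n | γ n ≤ T}.Finite) (c : ℕ → ℂ) : gonekB γ c = Bd γ c := by
  unfold gonekB Bd
  simp only [total_eq hf]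

theorem lims {γ : ℕ → ℝ} (hf : ∀ T, {n | γ n ≤ T}.Finite) (c : ℕ → ℂ) (a : ℝ) (w : ℕ → ℝ) :
    limsup (fun x : ℝ => (quot γ c a w x : EReal)) atTop =
      limsup (fun y : ℝ => ((osc γ c w y / ll y : ℝ) : EReal)) atTop ∧
    liminf (fun x : ℝ => (quot γ c a w x : EReal)) atTop =
      liminf (fun y : ℝ => ((osc γ c w y / ll y : ℝ) : EReal)) atTop :=
  limits_x_const hf c a w

/-- (1) Let `μ` be a probability measure on `[-1, 1]` whose Fourier transform decays faster than every power, and let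
`ξ n` be independent with law `μ`. Almost surely the lower and upper limits of Gonek's quotient for the ordinates
`γ n + d n * ξ n` are `-B` and `B`. (2) If `B > 0`, then for all `ξ` in a residual subset of `[-1, 1]^ℕ` the displaced
ordinates are linearly independent over `ℚ` and the lower and upper limits are `-∞` and `∞`. -/
theorem result (γ : ℕ → ℝ) (c : ℕ → ℂ) (a : ℝ) (h : Admissible γ c) (d : ℕ → ℝ) (hd : Scale γ d) :
    (∀ μ : Measure ℝ, ∀ _ : IsProbabilityMeasure μ, (∀ᵐ v ∂μ, |v| ≤ 1) →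
      (∀ K : ℕ, ∃ C : ℝ, ∀ t : ℝ, ‖∫ v, Complex.exp ((t * v : ℝ) * Complex.I) ∂μ‖ * (1 + |t|) ^ K ≤ C) →
      ∀ᵐ ξ ∂(Measure.infinitePi fun _ : ℕ => μ),
        liminf (fun x : ℝ => (quot γ c a (fun n => d n * ξ n) x : EReal)) atTop = -gonekB γ c ∧
        limsup (fun x : ℝ => (quot γ c a (fun n => d n * ξ n) x : EReal)) atTop = gonekB γ c) ∧
    (0 < gonekB γ c → ∀ᶠ ξ : ℕ → Set.Icc (-1 : ℝ) 1 in residual (ℕ → Set.Icc (-1 : ℝ) 1),
      LinearIndependent ℚ (fun n => γ n + d n * (ξ n : ℝ)) ∧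
      liminf (fun x : ℝ => (quot γ c a (fun n => d n * (ξ n : ℝ)) x : EReal)) atTop = ⊥ ∧
      limsup (fun x : ℝ => (quot γ c a (fun n => d n * (ξ n : ℝ)) x : EReal)) atTop = ⊤) := by
  obtain ⟨κ, c₀, hκ, hκ1, hc₀, hlow⟩ := hd.lower
  constructor
  · intro μ hμp hμ hF
    filter_upwards [final_ae h.data hd.pos hd.le_one hκ hκ1 hc₀ hlow hμ hF] with ξ hw
    obtain ⟨h1, h2⟩ := lims h.fin c a (fun n => d n * ξ n)
    rw [h1, h2, B_eq h.fin]
    exact ⟨hw.2, hw.1⟩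
  · intro hB
    rw [B_eq h.fin] at hB
    refine (generic h.data hB hd.pos (wide_log h.pos hd.pos hκ hκ1 hc₀ hlow)).mono fun ξ hw => ?_
    obtain ⟨h1, h2⟩ := lims h.fin c a (fun n => d n * (ξ n : ℝ))
    exact ⟨hw.1, h2.trans hw.2.2, h1.trans hw.2.1⟩

end Pool.Agent.Results.MP_a499ba_nt.DisplacedOrdinates
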